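import Mathlib
import Pool.Agent.TH932.S2.All
import Pool.Agent.TH932.S2.F.Al

set_option autoImplicit false

/-!
# Orbits of the `3x+d` maps whose parity sequence is composed of few long words repeat,
uniformly in `d`
-/

namespace Pool.Agent.Results.MP_d0d59f_nt.FewKindsOfBlocks

open Pool.Agent.TH932.S2

/-- the map `T_d` -/
def T (d x : ℤ) : ℤ := if x % 2 = 0 then x / 2 else (3 * x + d) / 2

/-- the word of the parities of the terms of the orbit of `x` at the times `a, a + 1, …, b - 1` -/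
def word (d x : ℤ) (a b : ℕ) : List (ZMod 2) :=
  (List.range (b - a)).map fun k => (((T d)^[a + k] x : ℤ) : ZMod 2)

/-- exponents of a parity word -/
def oo (u : ℕ → ZMod 2) : ℕ → ℕ
  | 0 => 0
  | L + 1 => oo u L + (if u L = 1 then 1 else 0)

/-- constant term of a parity word -/
def qq (d : ℤ) (u : ℕ → ZMod 2) : ℕ → ℤ
  | 0 => 0
  | L + 1 => if u L = 1 then 3 * qq d u L + 2 ^ L * d else qq d u L

lemma par_odd {a : ℤ} : ((a : ℤ) : ZMod 2) = 1 ↔ a % 2 = 1 := by
  have h1 : (1 : ZMod 2) = ((1 : ℤ) : ZMod 2) := by simp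
  rw [h1, ZMod.intCast_eq_intCast_iff, Int.ModEq]
  norm_num

lemma oo_congr {u v : ℕ → ZMod 2} {L : ℕ} (h : ∀ k < L, u k = v k) : oo u L = oo v L := by
  induction L with
  | zero => rfl
  | succ L ih =>
    simp only [oo]
    rw [ih fun k hk => h k (by omega), h L (by omega)]

lemma oo_le (u : ℕ → ZMod 2) (L : ℕ) : oo u L ≤ L := by
  induction L with
  | zero => exact le_rfl
  | succ L ih =>
    simp only [oo]
    split_ifs <;> omega

lemma qq_congr {d : ℤ} {u v : ℕ → ZMod 2} {L : ℕ} (h : ∀ k < L, u k = v k) :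
    qq d u L = qq d v L := by
  induction L with
  | zero => rfl
  | succ L ih =>
    simp only [qq]
    rw [ih fun k hk => h k (by omega), h L (by omega)]

lemma qq_bound (d : ℤ) (u : ℕ → ZMod 2) (L : ℕ) : |qq d u L| ≤ |d| * (3 ^ L - 2 ^ L) := by
  induction L with
  | zero => simp [qq]
  | succ L ih =>
    have h0 := abs_nonneg d
    have h2 : (0 : ℤ) ≤ 2 ^ L := by positivity
    have h3 : (2 : ℤ) ^ L ≤ 3 ^ L := by gcongr; norm_num
    simp only [qq]
    split_ifs
    · calc |3 * qq d u L + 2 ^ L * d| ≤ |3 * qq d u L| + |2 ^ L * d| := abs_add_le _ _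
        _ = 3 * |qq d u L| + 2 ^ L * |d| := by
            rw [abs_mul, abs_mul, abs_of_nonneg h2]; norm_num
        _ ≤ 3 * (|d| * (3 ^ L - 2 ^ L)) + 2 ^ L * |d| := by gcongr
        _ = |d| * (3 ^ (L + 1) - 2 ^ (L + 1)) := by ring
    · refine ih.trans ?_
      have : (3 : ℤ) ^ L - 2 ^ L ≤ 3 ^ (L + 1) - 2 ^ (L + 1) := by
        rw [pow_succ, pow_succ]; linarith
      gcongr

lemma run {d : ℤ} (hd : d % 2 = 1) (x : ℤ) (L : ℕ) :
    2 ^ L * (T d)^[L] x = 3 ^ (oo (fun k => (((T d)^[k] x : ℤ) : ZMod 2)) L) * x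
      + qq d (fun k => (((T d)^[k] x : ℤ) : ZMod 2)) L := by
  induction L with
  | zero => simp [oo, qq]
  | succ L ih =>
    rw [Function.iterate_succ_apply']
    simp only [oo, qq]
    rcases Int.emod_two_eq_zero_or_one ((T d)^[L] x) with h | h
    · have h1 : ¬ (((T d)^[L] x : ℤ) : ZMod 2) = 1 := by rw [par_odd]; omega
      rw [if_neg h1, if_neg h1, add_zero, ← ih]
      have h2 : 2 * T d ((T d)^[L] x) = (T d)^[L] x := by
        rw [T, if_pos h]; omega
      rw [pow_succ]
      linear_combination (2 : ℤ) ^ L * h2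
    · have h1 : (((T d)^[L] x : ℤ) : ZMod 2) = 1 := by rw [par_odd]; exact h
      rw [if_pos h1, if_pos h1]
      have h2 : 2 * T d ((T d)^[L] x) = 3 * (T d)^[L] x + d := by
        rw [T, if_neg (by omega)]; omega
      rw [pow_succ, pow_succ]
      linear_combination (2 : ℤ) ^ L * h2 + 3 * ih

lemma word_eq {d x : ℤ} {a b a' b' : ℕ} (h : word d x a b = word d x a' b') :
    b - a = b' - a' ∧ ∀ k < b - a, (((T d)^[a + k] x : ℤ) : ZMod 2)
      = (((T d)^[a' + k] x : ℤ) : ZMod 2) := by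
  have h1 := congrArg List.length h
  simp only [word, List.length_map, List.length_range] at h1
  refine ⟨h1, fun k hk => ?_⟩
  have h2 := congrArg (fun l => l[k]?) h
  simp only [word, List.getElem?_map] at h2
  rw [List.getElem?_range hk, List.getElem?_range (h1 ▸ hk)] at h2
  simpa using h2

/-- **Result.** For every `r` and `B` there is `E` such that, for all `L ≥ E`, all odd `d` and all
integers `x` with `|d|, |x| ≤ e ^ (B L)`: if the first parities of the orbit of `x` under `T_d` are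
divided into `E` consecutive words of lengths between `L` and `B L`, at the times
`0 = τ 0 < τ 1 < … < τ E`, and at most `r` different words occur among these, then
`T_d^(τ i) (x) = T_d^(τ j) (x)` for some `i < j ≤ E`. -/
theorem result (r : ℕ) (B : ℝ) :
    ∃ E : ℕ, ∀ (L : ℕ) (d x : ℤ) (τ : ℕ → ℕ), E ≤ L → Odd d →
      |(d : ℝ)| ≤ Real.exp (B * L) → |(x : ℝ)| ≤ Real.exp (B * L) → τ 0 = 0 →
      (∀ j < E, τ j + L ≤ τ (j + 1) ∧ (τ (j + 1) : ℝ) ≤ τ j + B * L) →
      ((Finset.range E).image fun j => word d x (τ j) (τ (j + 1))).card ≤ r →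
      ∃ i j : ℕ, i < j ∧ j ≤ E ∧ (T d)^[τ i] x = (T d)^[τ j] x := by
  classical
  have hlog3 : 0 < Real.log 3 := Real.log_pos (by norm_num)
  set B' : ℝ := |B| + |B| * Real.log 3 with hB'
  have hBB : B ≤ |B| := le_abs_self B
  have hB0 : 0 ≤ |B| := abs_nonneg B
  have hBp : 0 ≤ |B| * Real.log 3 := by positivity
  obtain ⟨E, H⟩ := F.affine_blocks bd_thm (p := 2) (q := 3) le_rfl (by norm_num)
    (by norm_num [Int.isCoprime_iff_gcd_eq_one]) r (B := B') (by positivity)
  refine ⟨E + 1, fun L d x τ hL hd0 hdB hxB hτ0 hτ hcard => ?_⟩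
  have hd : d % 2 = 1 := Int.odd_iff.1 hd0
  have hLr : (0 : ℝ) ≤ L := by positivity
  have hle : ∀ j < E + 1, τ (j + 1) - τ j ≤ τ (j + 1) := fun j _ => Nat.sub_le _ _
  have hlen : ∀ j < E + 1, ((τ (j + 1) - τ j : ℕ) : ℝ) ≤ |B| * L := by
    intro j hj
    obtain ⟨h1, h2⟩ := hτ j hj
    rw [Nat.cast_sub (by omega)]
    have : B * (L : ℝ) ≤ |B| * L := by gcongr
    linarith
  set S := (Finset.range (E + 1)).image fun j => word d x (τ j) (τ (j + 1)) with hS
  have hmemS : ∀ i < E + 1, word d x (τ i) (τ (i + 1)) ∈ S := fun i hi =>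
    Finset.mem_image_of_mem (fun j => word d x (τ j) (τ (j + 1))) (Finset.mem_range.2 hi)
  have hcard' : Fintype.card S ≤ Fintype.card (Fin r) := by
    rw [Fintype.card_coe, Fintype.card_fin]; exact hcard
  obtain ⟨f⟩ := Function.Embedding.nonempty_of_card_le hcard'
  -- representatives
  have hrep : ∀ i : Fin r, ∃ j, j < E + 1 ∧
      ∀ k, (hk : k < E + 1) → f ⟨word d x (τ k) (τ (k + 1)), hmemS k hk⟩ = i →
        word d x (τ k) (τ (k + 1)) = word d x (τ j) (τ (j + 1)) := by
    intro i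
    by_cases h : ∃ j, ∃ hj : j < E + 1, f ⟨word d x (τ j) (τ (j + 1)), hmemS j hj⟩ = i
    · obtain ⟨j, hj, hfj⟩ := h
      refine ⟨j, hj, fun k hk hfk => ?_⟩
      have := f.injective (hfk.trans hfj.symm)
      exact congrArg Subtype.val this
    · exact ⟨0, by omega, fun k hk hfk => absurd ⟨k, hk, hfk⟩ h⟩
  choose rp hrp1 hrp2 using hrep
  have hidx : ∀ j : ℕ, (if j < E + 1 then j else 0) < E + 1 := fun j => by split_ifs <;> omega
  set s : ℕ → Fin r := fun j => f ⟨word d x (τ (if j < E + 1 then j else 0))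
    (τ ((if j < E + 1 then j else 0) + 1)), hmemS _ (hidx j)⟩ with hs
  set ℓ : Fin r → ℕ := fun i => τ (rp i + 1) - τ (rp i) with hℓ
  set u : Fin r → ℕ → ZMod 2 := fun i k => (((T d)^[τ (rp i) + k] x : ℤ) : ZMod 2) with hu
  set y : ℕ → ℤ := fun j => (T d)^[τ j] x with hy
  have hword : ∀ j < E + 1, τ (j + 1) - τ j = ℓ (s j) ∧
      ∀ k < ℓ (s j), (((T d)^[τ j + k] x : ℤ) : ZMod 2) = u (s j) k := by
    intro j hj
    have hsj : s j = f ⟨word d x (τ j) (τ (j + 1)), hmemS j hj⟩ := by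
      simp only [hs]
      congr 2
      rw [if_pos hj]
    have h1 := word_eq (hrp2 (s j) j hj hsj.symm)
    refine ⟨h1.1, fun k hk => h1.2 k ?_⟩
    rw [h1.1]; exact hk
  obtain ⟨i, j, hij, hjE, heq⟩ := H L ℓ (fun i => oo (u i) (ℓ i)) (fun i => qq d (u i) (ℓ i)) s y
    (by omega) (fun i => by
      have := (hτ (rp i) (hrp1 i)).1
      simp only [hℓ]; omega) (fun i => by
      have h1 := hlen (rp i) (hrp1 i)
      refine h1.trans ?_
      rw [hB']
      nlinarith) (fun i => by
      have h1 := hlen (rp i) (hrp1 i)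
      have h2 : ((oo (u i) (ℓ i) : ℕ) : ℝ) ≤ ℓ i := by exact_mod_cast oo_le _ _
      refine h2.trans (h1.trans ?_)
      rw [hB']
      nlinarith) (fun i => by
      have h1 := qq_bound d (u i) (ℓ i)
      have h2 : |qq d (u i) (ℓ i)| ≤ |d| * 3 ^ ℓ i := by
        refine h1.trans ?_
        have : (0 : ℤ) ≤ 2 ^ ℓ i := by positivity
        gcongr; linarith
      have h3 : |((qq d (u i) (ℓ i) : ℤ) : ℝ)| ≤ |(d : ℝ)| * 3 ^ ℓ i := by exact_mod_cast h2
      refine h3.trans ?_
      have h4 : Real.exp (B' * L) = Real.exp (|B| * L) * Real.exp (Real.log 3 * (|B| * L)) := by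
        rw [hB', ← Real.exp_add]; ring_nf
      have h5 : (3 : ℝ) ^ ℓ i ≤ Real.exp (Real.log 3 * (|B| * L)) := by
        rw [← Real.rpow_natCast, Real.rpow_def_of_pos (by norm_num)]
        apply Real.exp_le_exp.2
        have := hlen (rp i) (hrp1 i)
        gcongr
      have h6 : |(d : ℝ)| ≤ Real.exp (|B| * L) := hdB.trans (Real.exp_le_exp.2 (by gcongr))
      rw [h4]
      gcongr) (by
      have h1 : (y 0 : ℤ) = x := by simp only [hy]; rw [hτ0]; rfl
      rw [h1]
      refine hxB.trans (Real.exp_le_exp.2 ?_)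
      rw [hB']
      nlinarith) (by
      intro j hj
      obtain ⟨h3, h4⟩ := hword j (by omega)
      have h1 := run hd ((T d)^[τ j] x) (ℓ (s j))
      have h2 : ∀ k, (T d)^[k] ((T d)^[τ j] x) = (T d)^[τ j + k] x := by
        intro k
        rw [← Function.iterate_add_apply, add_comm]
      simp only [h2] at h1
      have h5 : τ j + ℓ (s j) = τ (j + 1) := by
        have := (hτ j (by omega)).1
        omega
      rw [h5, oo_congr h4, qq_congr h4] at h1
      push_cast
      exact h1)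
  exact ⟨i, j, hij, by omega, heq⟩

end Pool.Agent.Results.MP_d0d59f_nt.FewKindsOfBlocks
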