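import Mathlib
import Pool.Agent.TH930.UD.Set

set_option autoImplicit false

/-!
# The `3x+d` maps: power saving in terms of the LEVEL, for sets of values of `d`

For every `c < 1 - H`, `H = 0.94995...` the binary entropy of `log 2 / log 3` in bits, and every `ε > 0`
there is a constant `C` such that for all `D ≥ 1`, all levels `y ≥ D ^ (1 + ε)`, all `X ≥ 1` and every set
`G` of odd numbers `d` prime to `3` with `|d| ≤ D`: the numbers of the integers of `[-X, X]` whose `3x+d`
orbit avoids `[-y, y]` have, over `d` in `G`, a sum at most `C (X / y ^ c) min (#G) (D ^ (1 - c))`.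

* `G = {d}`: the finite set `F_d = [-|d| ^ (1 + ε), |d| ^ (1 + ε)]` is met by the `3x+d` orbits of all
  integers outside a set of upper density at most `C |d| ^ (-c (1 + ε))`. The earlier bounds uniform in `d`
  (starting result `UniformInD`, `UniformBelowEntropy`) are `C X (|d| / y) ^ c`, at this level a saving of
  `|d| ^ (c ε)` only.
* `G` all `d` with `|d| ≤ D`: on average over `d` the saving is even `(D y) ^ c`.

The earlier bounds count the parity words of length `log₂ (y / |d|)`. Here words of length `log₂ y` are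
used (the bias term of the `3x+d` orbit stays small as long as the orbit is above `|d|` times the number of
steps), and on average words of length `log₂ (D y)`: the first `K` parities of the `3x+d` orbit of `z` are
those of the 2-adic integer `z / d`, and two pairs `(z, d)`, `(z', d')` without common divisors and with
the same `K` parities satisfy `2 ^ K ∣ z d' - z' d`, so they are equal if `2 ^ K > 2 Z D`.
-/

namespace Pool.Agent.Results.MP_d0d59f_nt.SavingInTheLevel

/-- the `3x+d` map on the integers -/
def T (d x : ℤ) : ℤ := if x % 2 = 0 then x / 2 else (3 * x + d) / 2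

/-- the binary entropy of `log 2 / log 3` in bits, `0.94995...` -/
noncomputable def H : ℝ := Real.binEntropy (Real.log 2 / Real.log 3) / Real.log 2

/-- the number of the integers `x` with `|x| ≤ X` whose `3x+d` orbit has all its elements larger than `y`
in absolute value -/
noncomputable def exceptions (d : ℤ) (X y : ℝ) : ℕ :=
  {x : ℤ | |(x : ℝ)| ≤ X ∧ ∀ n : ℕ, y < |(((T d)^[n] x : ℤ) : ℝ)|}.ncard

/-- For all `0 < c < 1 - H` and `ε > 0` there is `C` such that for all `D ≥ 1`, `X ≥ 1` and
`y ≥ D ^ (1 + ε)` and every finite set `G` of odd `d` prime to `3` with `|d| ≤ D` the sum over `d` in `G` of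
the numbers of exceptions is at most `C (X / y ^ c) min (#G) (D ^ (1 - c))`. -/
theorem result (c ε : ℝ) (hc0 : 0 < c) (hc : c < 1 - H) (hε : 0 < ε) :
    ∃ C : ℝ, 0 < C ∧ ∀ D X y : ℝ, 1 ≤ D → 1 ≤ X → D ^ (1 + ε) ≤ y →
      ∀ G : Finset ℤ, (∀ d ∈ G, d % 2 = 1 ∧ ¬ (3 : ℤ) ∣ d ∧ |(d : ℝ)| ≤ D) →
        (∑ d ∈ G, (exceptions d X y : ℝ)) ≤ C * (X / y ^ c) * min (G.card : ℝ) (D ^ (1 - c)) := by
  obtain ⟨C, hC, h⟩ := Pool.Agent.TH930.UD.set_saving hc0 hc hε
  exact ⟨C, hC, fun D X y hD hX hy G hG => h D X y hD hX hy G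
    (fun d hd => ⟨Int.odd_iff.2 (hG d hd).1, (hG d hd).2⟩)⟩

end Pool.Agent.Results.MP_d0d59f_nt.SavingInTheLevel
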