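import Mathlib
import Pool.Agent.TH932.S2.All
import Pool.Agent.TH932.S2.F.Fin
import Pool.Agent.TH932.S2.G.Ss
import Pool.Agent.TH932.S2.G.DescD

set_option autoImplicit false

/-!
# The block complexity of the parity sequences of orbits of `3x + d` maps, uniformly in `d`
-/

namespace Pool.Agent.Results.MP_d0d59f_nt.SuperlinearDescent

open Filter Topology Pool.Agent.TH932.Words Pool.Agent.TH932.S2

/-- the map of the problem -/
def T (d x : ℤ) : ℤ := if x % 2 = 0 then x / 2 else (3 * x + d) / 2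

/-- the number of different blocks of `n` consecutive parities among the first `H` terms of the
orbit of `x` -/
noncomputable def blocksUpTo (d x : ℤ) (H n : ℕ) : ℕ :=
  ((fun i : ℕ => fun j : Fin n => (((T d)^[i + j] x : ℤ) : ZMod 2)) '' {i | i + n ≤ H}).ncard

/-- the number of different blocks of `n` consecutive parities in the orbit of `x` -/
noncomputable def blocks (d x : ℤ) (n : ℕ) : ℕ :=
  (Set.range (fun i : ℕ => fun j : Fin n => (((T d)^[i + j] x : ℤ) : ZMod 2))).ncard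

lemma par_odd {a : ℤ} : ((a : ℤ) : ZMod 2) = 1 ↔ a % 2 = 1 := by
  have h1 : (1 : ZMod 2) = ((1 : ℤ) : ZMod 2) := by simp
  rw [h1, ZMod.intCast_eq_intCast_iff, Int.ModEq]
  norm_num

/-- exponents -/
def dl (a : ZMod 2) : ℕ := if a = 1 then 1 else 0

/-- the affine maps -/
def D : F.Dt (ZMod 2) where
  p := 2
  q := 3
  M := 3
  δ := dl
  β := fun a => (dl a : ℤ)
  hp := le_rfl
  hq := by norm_num
  hpq := by norm_num [Int.isCoprime_iff_gcd_eq_one]
  hpM := by norm_num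
  hqM := by intro a; unfold dl; split_ifs <;> norm_num
  hβM := by intro a; unfold dl; split_ifs <;> norm_num

/-- parities -/
def f (y : ℤ) : ZMod 2 := ((y : ℤ) : ZMod 2)

lemma mp {d : ℤ} (hd : Odd d) : F.Mp D d f (T d) where
  hd := by
    obtain ⟨k, rfl⟩ := hd
    change IsCoprime (2 * k + 1) ((2 : ℕ) : ℤ)
    exact ⟨1, -k, by push_cast; ring⟩
  hG := by
    intro y
    change ((2 : ℕ) : ℤ) * T d y = ((3 : ℕ) : ℤ) ^ dl (f y) * y + d * (dl (f y) : ℤ)
    obtain ⟨k, hk⟩ := hd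
    rcases Int.emod_two_eq_zero_or_one y with h1 | h1
    · have hw : dl (f y) = 0 := by
        unfold dl
        rw [if_neg]
        unfold f
        rw [par_odd]; omega
      rw [hw, T, if_pos h1]
      push_cast
      omega
    · have hw : dl (f y) = 1 := by
        unfold dl
        rw [if_pos]
        unfold f
        rw [par_odd]; exact h1
      rw [hw, T, if_neg (by omega)]
      push_cast
      omega

lemma two_pow_le (N : ℕ) : (2 : ℝ) ^ N ≤ Real.exp N := by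
  have h2 : (2 : ℝ) ≤ Real.exp 1 := by
    have := Real.add_one_le_exp (1 : ℝ)
    linarith
  calc (2 : ℝ) ^ N ≤ Real.exp 1 ^ N := by gcongr
    _ = Real.exp N := by rw [← Real.exp_nat_mul, mul_one]

/-- All scales: for every `A` there is `K` such that, for all odd `d` and all integers `x` and
`1 ≤ M ≤ N` with `|d|, |x| ≤ 2 ^ N`: if for `M ≤ n ≤ K N` there are at most `A n` different blocks
of `n` consecutive parities among the first `K N` terms of the orbit of `x` under `T d`, then the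
orbit reaches, after at most `K N` steps, a cycle of length at most `K (M + log |d|)` whose
elements have absolute value at most `(2 ^ M * |d|) ^ K`. -/
theorem all_scales (A : ℝ) : ∃ K : ℕ, ∀ d : ℤ, Odd d → ∀ (x : ℤ) (M N : ℕ), 1 ≤ M → M ≤ N →
    |d| ≤ 2 ^ N → |x| ≤ 2 ^ N →
    (∀ n : ℕ, M ≤ n → n ≤ K * N → (blocksUpTo d x (K * N) n : ℝ) ≤ A * n) →
    ∃ i ≤ K * N, (∃ k : ℕ, 1 ≤ k ∧ (k : ℝ) ≤ K * (M + Real.log |(d : ℝ)|) ∧
      (T d)^[k] ((T d)^[i] x) = (T d)^[i] x) ∧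
      ∀ j, |(T d)^[j] ((T d)^[i] x)| ≤ (2 ^ M * |d|) ^ K := by
  obtain ⟨K, hK, h⟩ := F.enter bd_thm su_thm kp_thm D A
  refine ⟨2 * K, fun d hd x M N hM hMN hdN hx hcx => ?_⟩
  have hKN : K * N ≤ 2 * K * N := by
    have : 2 * K * N = K * N + K * N := by ring
    omega
  have hd1 : (1 : ℤ) ≤ |d| := (mp hd).d_abs
  have hd1r : (1 : ℝ) ≤ |(d : ℝ)| := by exact_mod_cast hd1
  have hld : 0 ≤ Real.log |(d : ℝ)| := Real.log_nonneg hd1r
  obtain ⟨i, hi, hz, hper, habs⟩ := h d f (T d) (mp hd) x M N hM hMN (by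
      have h1 : |(d : ℝ)| ≤ 2 ^ N := by exact_mod_cast hdN
      exact h1.trans (two_pow_le N)) (by
      have h1 : |(x : ℝ)| ≤ 2 ^ N := by exact_mod_cast hx
      exact h1.trans (two_pow_le N)) (by
      intro m hm1 hm2
      refine le_trans ?_ (hcx m hm1 (by omega))
      have h1 : F.wc (F.wd f (T d) x) (K * N) m ≤ F.wc (F.wd f (T d) x) (2 * K * N) m :=
        F.wc_mono _ hKN m
      have h2 : F.wc (F.wd f (T d) x) (2 * K * N) m = blocksUpTo d x (2 * K * N) m := rfl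
      rw [← h2]
      exact_mod_cast h1)
  set z := (T d)^[i] x with hzd
  have hπ1 : 1 ≤ Function.minimalPeriod (T d) z :=
    Function.minimalPeriod_pos_of_mem_periodicPts hz
  have hMr : (1 : ℝ) ≤ M := by exact_mod_cast hM
  have hKr : (0 : ℝ) ≤ K := by positivity
  refine ⟨i, by omega, ⟨_, hπ1, ?_, Function.iterate_minimalPeriod⟩, fun j => ?_⟩
  · refine hper.trans ?_
    push_cast
    nlinarith
  · have h1 := habs j
    have h2 : Real.exp ((K : ℝ) * (Real.log |(d : ℝ)| + M)) ≤ ((2 : ℝ) ^ M * |(d : ℝ)|) ^ (2 * K) := by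
      have h3 : Real.exp 1 ≤ 4 := by
        have := Real.exp_one_lt_d9
        linarith
      have h4 : Real.exp (M : ℝ) ≤ ((2 : ℝ) ^ M) ^ 2 := by
        calc Real.exp (M : ℝ) = Real.exp 1 ^ M := by rw [← Real.exp_nat_mul, mul_one]
          _ ≤ 4 ^ M := by gcongr
          _ = ((2 : ℝ) ^ M) ^ 2 := by rw [← pow_mul, mul_comm M 2, pow_mul]; norm_num
      calc Real.exp ((K : ℝ) * (Real.log |(d : ℝ)| + M))
          = (|(d : ℝ)| * Real.exp M) ^ K := by
            rw [← Real.exp_log (show 0 < |(d : ℝ)| by linarith), ← Real.exp_add, Real.log_exp,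
              ← Real.exp_nat_mul]
        _ ≤ (|(d : ℝ)| ^ 2 * ((2 : ℝ) ^ M) ^ 2) ^ K := by
            gcongr
            nlinarith
        _ = ((2 : ℝ) ^ M * |(d : ℝ)|) ^ (2 * K) := by
            rw [pow_mul, mul_pow]; ring
    have h5 := h1.trans h2
    exact_mod_cast h5

lemma blocksUpTo_le (d x : ℤ) (H n : ℕ) : blocksUpTo d x H n ≤ blocks d x n := by
  unfold blocksUpTo blocks
  exact Set.ncard_le_ncard (Set.image_subset_range _ _) (Set.toFinite _)

/-- One scale. -/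
theorem one_scale (A : ℝ) : ∃ K : ℕ, ∀ d : ℤ, Odd d → ∀ (x : ℤ) (N : ℕ), K ≤ N →
    |d| ≤ 2 ^ N → |x| ≤ 2 ^ N → (blocksUpTo d x (N ^ K) N : ℝ) ≤ A * N →
    (∃ i ≤ N ^ K, ∃ k, 1 ≤ k ∧ k ≤ N ^ K ∧ (T d)^[k] ((T d)^[i] x) = (T d)^[i] x) ∧
      ∀ j, |(T d)^[j] x| ≤ 2 ^ (K * N) := by
  obtain ⟨K, hK, h⟩ := Pool.Agent.TH932.S2.G.single_map D |A| 1 1
  refine ⟨2 * K, fun d hd x N hN hdN hx hcx => ?_⟩
  have hN1 : 1 ≤ N := by omega
  have hpow : N ^ K ≤ N ^ (2 * K) := Nat.pow_le_pow_right hN1 (by omega)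
  have hNr : (1 : ℝ) ≤ N := by exact_mod_cast hN1
  obtain ⟨i, j, hij, hj, he, hb⟩ := h N (by omega) d f (T d) (mp hd) (by
      have h1 : |(d : ℝ)| ≤ 2 ^ N := by exact_mod_cast hdN
      rw [one_mul]
      exact h1.trans (two_pow_le N)) x (by
      have h1 : |(x : ℝ)| ≤ 2 ^ N := by exact_mod_cast hx
      rw [one_mul]
      exact h1.trans (two_pow_le N)) (by
      have h1 : F.wc (F.wd f (T d) x) (N ^ K) N ≤ F.wc (F.wd f (T d) x) (N ^ (2 * K)) N :=
        F.wc_mono _ hpow N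
      have h2 : F.wc (F.wd f (T d) x) (N ^ (2 * K)) N = blocksUpTo d x (N ^ (2 * K)) N := rfl
      rw [h2] at h1
      have h3 : (F.wc (F.wd f (T d) x) (N ^ K) N : ℝ) ≤ blocksUpTo d x (N ^ (2 * K)) N := by
        exact_mod_cast h1
      have h4 : A * (N : ℝ) ≤ |A| * N := by
        have := le_abs_self A
        gcongr
      linarith)
  refine ⟨⟨i, by omega, j - i, by omega, by omega, ?_⟩, fun l => ?_⟩
  · rw [← Function.iterate_add_apply, Nat.sub_add_cancel hij.le]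
    exact he.symm
  · have h1 := hb l
    have h2 : Real.exp ((K : ℝ) * N) ≤ ((2 ^ (2 * K * N) : ℕ) : ℝ) := by
      have h3 : Real.exp 1 ≤ 4 := by
        have := Real.exp_one_lt_d9
        linarith
      calc Real.exp ((K : ℝ) * N) = Real.exp 1 ^ (K * N) := by
            rw [← Real.exp_nat_mul]; push_cast; ring_nf
        _ ≤ 4 ^ (K * N) := by gcongr
        _ = ((2 ^ (2 * K * N) : ℕ) : ℝ) := by
            rw [mul_assoc, pow_mul 2 2 (K * N)]; norm_num
    exact_mod_cast h1.trans h2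

/-- Descent in logarithmic time. -/
theorem log_descent (A R : ℝ) : ∃ K : ℕ, ∀ d : ℤ, Odd d → ∀ x : ℤ,
    (∀ i : ℕ, (i : ℝ) ≤ K * Real.log |(x : ℝ)| → (K : ℤ) * |d| ^ K < |(T d)^[i] x|) →
    ∃ m : ℕ, R ≤ m ∧ 1 ≤ m ∧ Real.log |(d : ℝ)| ≤ m ∧ R * m ≤ Real.log |(x : ℝ)| ∧
      ∀ N : ℕ, m ≤ N → (N : ℝ) ≤ R * m →
        A * N < blocksUpTo d x ⌊K * Real.log |(x : ℝ)|⌋₊ N := by
  obtain ⟨K, _, hK⟩ := G.desc_d D A R
  refine ⟨K, fun d hd x hx => ?_⟩
  obtain ⟨m, h1, h2, h3, h4, h5⟩ := hK d f (T d) (mp hd) x hx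
  exact ⟨m, h2, h1, h3, h4, h5⟩

/-- **Result.**

(1) If the orbit of `x` under `T d` (`d` odd) is unbounded, then `p (n) / n` tends to infinity,
where `p (n)` is the number of different blocks of `n` consecutive parities in it.

(2) For every `A` there is `K` such that, for all `N ≥ K`, all odd `d` and all integers `x` with
`|d|, |x| ≤ 2 ^ N`: if at most `A N` different blocks of `N` consecutive parities occur among the
first `N ^ K` terms of the orbit of `x` under `T d`, then the orbit reaches, after at most `N ^ K`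
steps, a cycle of length at most `N ^ K`, and all its terms have absolute value at most
`2 ^ (K N)`.

(3) For every `A` there is `K` such that, for all odd `d` and all integers `x` and
`1 ≤ M ≤ N` with `|d|, |x| ≤ 2 ^ N`: if for `M ≤ n ≤ K N` there are at most `A n` different blocks
of `n` consecutive parities among the first `K N` terms of the orbit of `x` under `T d`, then the
orbit reaches, after at most `K N` steps, a cycle of length at most `K (M + log |d|)` whose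
elements have absolute value at most `(2 ^ M * |d|) ^ K`.

(4) For all `A` and `R` there is `K` such that, for all odd `d` and all integers `x`: if the first
`K log |x|` terms of the orbit of `x` under `T d` are larger than `K |d| ^ K` in absolute value,
then there is an interval `[m, R m]` with `m ≥ R`, `m ≥ log |d|` and `R m ≤ log |x|` such that for
all integers `N` in it more than `A N` different blocks of `N` consecutive parities occur among
these terms. -/
theorem result :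
    (∀ d : ℤ, Odd d → ∀ x : ℤ, (∀ R : ℤ, ∃ k, R < |(T d)^[k] x|) →
      Tendsto (fun n : ℕ => (blocks d x n : ℝ) / n) atTop atTop) ∧
    (∀ A : ℝ, ∃ K : ℕ, ∀ d : ℤ, Odd d → ∀ (x : ℤ) (N : ℕ), K ≤ N →
      |d| ≤ 2 ^ N → |x| ≤ 2 ^ N → (blocksUpTo d x (N ^ K) N : ℝ) ≤ A * N →
      (∃ i ≤ N ^ K, ∃ k, 1 ≤ k ∧ k ≤ N ^ K ∧ (T d)^[k] ((T d)^[i] x) = (T d)^[i] x) ∧
        ∀ j, |(T d)^[j] x| ≤ 2 ^ (K * N)) ∧
    (∀ A : ℝ, ∃ K : ℕ, ∀ d : ℤ, Odd d → ∀ (x : ℤ) (M N : ℕ), 1 ≤ M → M ≤ N →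
      |d| ≤ 2 ^ N → |x| ≤ 2 ^ N →
      (∀ n : ℕ, M ≤ n → n ≤ K * N → (blocksUpTo d x (K * N) n : ℝ) ≤ A * n) →
      ∃ i ≤ K * N, (∃ k : ℕ, 1 ≤ k ∧ (k : ℝ) ≤ K * (M + Real.log |(d : ℝ)|) ∧
        (T d)^[k] ((T d)^[i] x) = (T d)^[i] x) ∧
        ∀ j, |(T d)^[j] ((T d)^[i] x)| ≤ (2 ^ M * |d|) ^ K) ∧
    (∀ A R : ℝ, ∃ K : ℕ, ∀ d : ℤ, Odd d → ∀ x : ℤ,
      (∀ i : ℕ, (i : ℝ) ≤ K * Real.log |(x : ℝ)| → (K : ℤ) * |d| ^ K < |(T d)^[i] x|) →
      ∃ m : ℕ, R ≤ m ∧ 1 ≤ m ∧ Real.log |(d : ℝ)| ≤ m ∧ R * m ≤ Real.log |(x : ℝ)| ∧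
        ∀ N : ℕ, m ≤ N → (N : ℝ) ≤ R * m →
          A * N < blocksUpTo d x ⌊K * Real.log |(x : ℝ)|⌋₊ N) := by
  refine ⟨fun d hd x hx => ?_, one_scale, all_scales, log_descent⟩
  rw [tendsto_atTop]
  intro A
  obtain ⟨K, hK⟩ := one_scale A
  have hex : ∀ a : ℤ, ∃ n0 : ℕ, |a| ≤ 2 ^ n0 := by
    intro a
    refine ⟨a.natAbs, ?_⟩
    have h1 : a.natAbs < 2 ^ a.natAbs := Nat.lt_two_pow_self
    have h2 : |a| = (a.natAbs : ℤ) := Int.abs_eq_natAbs a
    rw [h2]
    exact_mod_cast h1.le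
  obtain ⟨n0, hn0⟩ := hex x
  obtain ⟨n1, hn1⟩ := hex d
  filter_upwards [eventually_ge_atTop K, eventually_ge_atTop n0, eventually_ge_atTop n1,
    eventually_gt_atTop 0] with N h1 h2 h2' h3
  have hN : (0 : ℝ) < N := by exact_mod_cast h3
  rw [le_div_iff₀ hN]
  by_contra hcon
  push Not at hcon
  have h4 : (blocksUpTo d x (N ^ K) N : ℝ) ≤ A * N := by
    have : (blocksUpTo d x (N ^ K) N : ℝ) ≤ blocks d x N := by
      exact_mod_cast blocksUpTo_le d x _ N
    linarith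
  obtain ⟨_, h5⟩ := hK d hd x N h1 (hn1.trans (pow_le_pow_right₀ (by norm_num) h2'))
    (hn0.trans (pow_le_pow_right₀ (by norm_num) h2)) h4
  obtain ⟨k, hk⟩ := hx (2 ^ (K * N))
  have := h5 k
  omega

end Pool.Agent.Results.MP_d0d59f_nt.SuperlinearDescent
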