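import Mathlib
import Pool.Agent.TH235.UB.Three

set_option autoImplicit false

/-!
# The `3x+d` maps: beyond the entropy exponent, uniformly in `d`

For an exponent `c > 1 - H`, `H = 0.94995...` the binary entropy of `log 2 / log 3` in bits, and ONE
constant `C`, for ALL odd `d` prime to `3`: at most `C X (|d| / y) ^ c` of the integers of `[-X, X]` have a
`3x+d` orbit that avoids `[-y, y]`; and the orbits of the integers of `[-X, X]` all meet a set of at most
`C |d| ^ c X ^ (1 - c)` integers. The counting of parity words of length `log X` gives every exponent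
`c < 1 - H` and no larger one (starting result `UniformInD`).

Method: the orbits are followed for `(1 + τ) log₂ (X / |d|)` steps (`TH930.SP.count_k`: carry sequences,
large sieve, the `p`-adic subspace theorem), with the stages of `W36` at the scale `|d|`.
-/

namespace Pool.Agent.Results.MP_d0d59f_nt.UniformBelowEntropy

open Finset

/-- the `3x+d` map on the integers -/
def T (d x : ℤ) : ℤ := if x % 2 = 0 then x / 2 else (3 * x + d) / 2

/-- the binary entropy of `log 2 / log 3` in bits, `0.94995...` -/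
noncomputable def H : ℝ := Real.binEntropy (Real.log 2 / Real.log 3) / Real.log 2

/-- The number of integers `n` with `|n| ≤ X` and the property `P`. -/
noncomputable def count (P : ℤ → Prop) (X : ℝ) : ℝ := ({n : ℤ | |(n : ℝ)| ≤ X ∧ P n}.ncard : ℝ)

theorem fin_set (P : ℤ → Prop) (X : ℝ) : {x : ℤ | |(x : ℝ)| ≤ X ∧ P x}.Finite := by
  apply (Set.finite_Icc (-⌈X⌉) ⌈X⌉).subset
  rintro x ⟨hx, -⟩
  have h1 := abs_le.1 hx
  have h2 := Int.le_ceil X
  rw [Set.mem_Icc]
  constructor
  · have : (-(⌈X⌉ : ℤ) : ℝ) ≤ x := by linarith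
    exact_mod_cast this
  · have : (x : ℝ) ≤ (⌈X⌉ : ℤ) := by linarith
    exact_mod_cast this

/-- the orbit stays outside `[-y, y]` -/
theorem high : ∃ c : ℝ, 1 - H < c ∧ c < 1 ∧ ∃ A : ℝ, 0 < A ∧ ∀ d : ℤ, d % 2 = 1 → ¬ (3 : ℤ) ∣ d →
    ∀ X y : ℝ, 1 ≤ X → 0 < y →
    count (fun x => ∀ n : ℕ, y < |(((T d)^[n] x : ℤ) : ℝ)|) X ≤ A * X * (|(d : ℝ)| / y) ^ c := by
  obtain ⟨c, hc, hc1, A, hA, h⟩ := Pool.Agent.TH235.UB.threeV
  exact ⟨c, hc, hc1, A, hA, fun d hd hd3 X y hX hy => h d (Int.odd_iff.2 hd) hd3 X y hX hy⟩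

/-- the orbit never falls below its starting point -/
def Min (d x : ℤ) : Prop := ∀ n : ℕ, |(x : ℝ)| ≤ |(((T d)^[n] x : ℤ) : ℝ)|

/-- the number of integers whose orbit never falls below its starting point -/
theorem min_count {c A D : ℝ} {d : ℤ} (hA : 0 < A) (hc1 : c < 1) (hD : 1 ≤ D)
    (h : ∀ X y : ℝ, 1 ≤ X → 0 < y →
      count (fun x => ∀ n : ℕ, y < |(((T d)^[n] x : ℤ) : ℝ)|) X ≤ A * X * (|(d : ℝ)| / y) ^ c)
    (hDd : |(d : ℝ)| ^ c = D) :
    ∀ X : ℝ, 1 ≤ X → count (Min d) X ≤ max 3 (A * 2 ^ c / (1 - 2 ^ (-(1 - c)))) * D * X ^ (1 - c) := by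
  have hη : 0 < 1 - c := by linarith
  have h2 : (2 : ℝ) ^ (-(1 - c)) < 1 := Real.rpow_lt_one_of_one_lt_of_neg (by norm_num) (by linarith)
  have h3 : 0 < 1 - (2 : ℝ) ^ (-(1 - c)) := by linarith
  have h2c : (0 : ℝ) < 2 ^ c := Real.rpow_pos_of_pos (by norm_num) _
  set B : ℝ := max 3 (A * 2 ^ c / (1 - 2 ^ (-(1 - c)))) with hB
  have hB3 : 3 ≤ B := le_max_left _ _
  have hBA : A * 2 ^ c ≤ B * (1 - 2 ^ (-(1 - c))) := by
    have := le_max_right 3 (A * 2 ^ c / (1 - 2 ^ (-(1 - c))))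
    rw [← hB, div_le_iff₀ h3] at this
    exact this
  have hD0 : 0 < D := by linarith
  have key : ∀ n : ℕ, ∀ X : ℝ, 1 ≤ X → X < 2 ^ n → count (Min d) X ≤ B * D * X ^ (1 - c) := by
    intro n
    induction n with
    | zero => intro X h1 h2; norm_num at h2; linarith
    | succ n ih =>
      intro X hX hXn
      rcases lt_or_ge X 2 with hX2 | hX2
      · -- at most three integers
        have e1 : count (Min d) X ≤ 3 := by
          have hsub : {x : ℤ | |(x : ℝ)| ≤ X ∧ Min d x} ⊆ (({-1, 0, 1} : Finset ℤ) : Set ℤ) := by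
            rintro x ⟨hx, -⟩
            have h5 : |(x : ℝ)| < 2 := by linarith
            have h6 : |x| < 2 := by exact_mod_cast h5
            rw [abs_lt] at h6
            have : x = -1 ∨ x = 0 ∨ x = 1 := by omega
            simpa using this
          have h7 := Set.ncard_le_ncard hsub (Finset.finite_toSet _)
          rw [Set.ncard_coe_finset] at h7
          have h8 : (({-1, 0, 1} : Finset ℤ)).card = 3 := by decide
          rw [h8] at h7
          unfold count
          exact_mod_cast h7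
        have e2 : 1 ≤ X ^ (1 - c) := Real.one_le_rpow hX hη.le
        have e3 : 3 * 1 ≤ B * D := mul_le_mul hB3 hD (by norm_num) (by linarith)
        nlinarith
      · have e0 : 1 ≤ X / 2 := by linarith
        have e1 := ih (X / 2) e0 (by rw [pow_succ] at hXn; linarith)
        have e2 := h X (X / 2) hX (by linarith)
        have e3 : count (Min d) X ≤ count (Min d) (X / 2) +
            count (fun x => ∀ n : ℕ, X / 2 < |(((T d)^[n] x : ℤ) : ℝ)|) X := by
          unfold count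
          have hsub : {x : ℤ | |(x : ℝ)| ≤ X ∧ Min d x} ⊆ {x : ℤ | |(x : ℝ)| ≤ X / 2 ∧ Min d x} ∪
              {x : ℤ | |(x : ℝ)| ≤ X ∧ ∀ n : ℕ, X / 2 < |(((T d)^[n] x : ℤ) : ℝ)|} := by
            rintro x ⟨hx1, hx2⟩
            rcases le_or_gt |(x : ℝ)| (X / 2) with h5 | h5
            · left; exact ⟨h5, hx2⟩
            · right; exact ⟨hx1, fun n => h5.trans_le (hx2 n)⟩
          have h6 := Set.ncard_le_ncard hsub ((fin_set _ _).union (fin_set _ _))
          have h7 := h6.trans (Set.ncard_union_le _ _)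
          exact_mod_cast h7
        have hX0 : 0 < X := by linarith
        have e4 : (X / 2) ^ (1 - c) = X ^ (1 - c) * 2 ^ (-(1 - c)) := by
          rw [Real.div_rpow hX0.le (by norm_num), Real.rpow_neg (by norm_num), div_eq_mul_inv]
        have e5 : A * X * (|(d : ℝ)| / (X / 2)) ^ c = A * 2 ^ c * D * X ^ (1 - c) := by
          rw [Real.div_rpow (abs_nonneg _) (by positivity), hDd, Real.div_rpow hX0.le (by norm_num),
            Real.rpow_sub hX0, Real.rpow_one]
          have : 0 < X ^ c := Real.rpow_pos_of_pos hX0 _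
          field_simp
        rw [e4] at e1
        rw [e5] at e2
        have e6 : 0 ≤ D * X ^ (1 - c) := by positivity
        calc count (Min d) X ≤ B * D * (X ^ (1 - c) * 2 ^ (-(1 - c))) + A * 2 ^ c * D * X ^ (1 - c) := by
              linarith
          _ ≤ B * D * (X ^ (1 - c) * 2 ^ (-(1 - c))) + B * (1 - 2 ^ (-(1 - c))) * (D * X ^ (1 - c)) := by
              have := mul_le_mul_of_nonneg_right hBA e6
              linarith
          _ = B * D * X ^ (1 - c) := by ring
  intro X hX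
  obtain ⟨n, hn⟩ := pow_unbounded_of_one_lt X (by norm_num : (1 : ℝ) < 2)
  exact key n X hX hn

/-- the element of least absolute value of a forward orbit -/
theorem exists_min (d x : ℤ) : ∃ k : ℕ, |(((T d)^[k] x : ℤ) : ℝ)| ≤ |(x : ℝ)| ∧ Min d ((T d)^[k] x) := by
  classical
  have h1 : ∃ m : ℕ, ∃ k : ℕ, ((T d)^[k] x).natAbs = m := ⟨_, 0, rfl⟩
  obtain ⟨k, hk⟩ := Nat.find_spec h1
  have h2 : ∀ j : ℕ, ((T d)^[k] x).natAbs ≤ ((T d)^[j] x).natAbs := by
    intro j
    rw [hk]
    exact Nat.find_min' h1 ⟨j, rfl⟩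
  have h3 : ∀ z : ℤ, |(z : ℝ)| = (z.natAbs : ℝ) := by
    intro z
    rw [← Int.cast_abs, Int.abs_eq_natAbs, Int.cast_natCast]
  refine ⟨k, ?_, ?_⟩
  · rw [h3, h3]
    exact_mod_cast h2 0
  · intro n
    rw [h3, h3, ← Function.iterate_add_apply]
    exact_mod_cast h2 (n + k)

/-- There are `c > 1 - H` and `C > 0` such that for ALL odd `d` prime to `3`:

(1) for all `X ≥ 1` and `y > 0` at most `C X (|d| / y) ^ c` of the integers `x` with `|x| ≤ X` have a
`3x+d` orbit all of whose elements are larger than `y` in absolute value;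

(2) for every `X ≥ 1` there is a finite set `F` of at most `C |d| ^ c X ^ (1 - c)` integers such that the
`3x+d` orbit of every integer `x` with `|x| ≤ X` contains an element `m` of `F`, with `|m| ≤ |x|`. -/
theorem result :
    ∃ c C : ℝ, 1 - H < c ∧ 0 < C ∧ ∀ d : ℤ, d % 2 = 1 → ¬ (3 : ℤ) ∣ d →
      (∀ X y : ℝ, 1 ≤ X → 0 < y →
        count (fun x => ∀ n : ℕ, y < |(((T d)^[n] x : ℤ) : ℝ)|) X ≤ C * X * (|(d : ℝ)| / y) ^ c) ∧
      (∀ X : ℝ, 1 ≤ X → ∃ F : Finset ℤ, (F.card : ℝ) ≤ C * |(d : ℝ)| ^ c * X ^ (1 - c) ∧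
        ∀ x : ℤ, |(x : ℝ)| ≤ X → ∃ m ∈ F, |(m : ℝ)| ≤ |(x : ℝ)| ∧ ∃ n : ℕ, (T d)^[n] x = m) := by
  obtain ⟨c, hc, hc1, A, hA, h⟩ := high
  have hc0 : 0 ≤ c := by
    have h1 : H < 1 := lt_trans Pool.Agent.H319R2.beta_lt (by norm_num)
    linarith
  set B : ℝ := max 3 (A * 2 ^ c / (1 - 2 ^ (-(1 - c)))) with hB
  refine ⟨c, max A B, hc, lt_max_of_lt_left hA, fun d hd hd3 => ?_⟩
  have hd1 : (1 : ℝ) ≤ |(d : ℝ)| := by
    have h0 : d ≠ 0 := by rintro rfl; simp at hd
    exact_mod_cast Int.one_le_abs h0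
  have hD : 1 ≤ |(d : ℝ)| ^ c := Real.one_le_rpow hd1 hc0
  refine ⟨fun X y hX hy => ?_, fun X hX => ?_⟩
  · refine (h d hd hd3 X y hX hy).trans ?_
    have h1 : 0 ≤ (|(d : ℝ)| / y) ^ c := Real.rpow_nonneg (by positivity) _
    have h2 : A * X ≤ max A B * X := mul_le_mul_of_nonneg_right (le_max_left _ _) (by linarith)
    exact mul_le_mul_of_nonneg_right h2 h1
  · refine ⟨(fin_set (Min d) X).toFinset, ?_, ?_⟩
    · have h1 := min_count hA hc1 hD (h d hd hd3) rfl X hX
      unfold count at h1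
      rw [Set.ncard_eq_toFinset_card _ (fin_set (Min d) X)] at h1
      have h2 : B * |(d : ℝ)| ^ c * X ^ (1 - c) ≤ max A B * |(d : ℝ)| ^ c * X ^ (1 - c) := by
        apply mul_le_mul_of_nonneg_right _ (Real.rpow_nonneg (by linarith) _)
        exact mul_le_mul_of_nonneg_right (le_max_right _ _) (by linarith)
      exact h1.trans h2
    · intro x hx
      obtain ⟨k, hk1, hk2⟩ := exists_min d x
      refine ⟨(T d)^[k] x, ?_, hk1, k, rfl⟩
      rw [Set.Finite.mem_toFinset]
      exact ⟨hk1.trans hx, hk2⟩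

end Pool.Agent.Results.MP_d0d59f_nt.UniformBelowEntropy
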